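import Pool.Agent.DFM.Stmts

/-!
# Squad DFM (MP_df7fe8_co), row UNB
-/

set_option autoImplicit false

namespace Pool.Agent.DFM.H52

open Cardinal

theorem exists_unb : ∃ F : Set (ℕ → ℕ), Unb F ∧ Cardinal.mk F = bNum := by
  have h : ({c : Cardinal.{0} | ∃ F : Set (ℕ → ℕ), Unb F ∧ Cardinal.mk F = c}).Nonempty := by
    refine ⟨_, Set.univ, ?_, rfl⟩
    intro g
    refine ⟨fun n => g n + 1, Set.mem_univ _, fun m => ⟨m, le_refl m, ?_⟩⟩
    exact Nat.lt_succ_self _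
  exact csInf_mem h

theorem infinite_of_unb (F : Set (ℕ → ℕ)) (hF : Unb F) : Cardinal.aleph0 ≤ Cardinal.mk F := by
  by_contra hlt
  rw [not_le] at hlt
  have hfin : F.Finite := Cardinal.lt_aleph0_iff_set_finite.mp hlt
  obtain ⟨φ, hφ, h⟩ := hF (fun n => ∑ ψ ∈ hfin.toFinset, ψ n)
  obtain ⟨n, -, hn⟩ := h 0
  have h1 : φ n ≤ ∑ ψ ∈ hfin.toFinset, ψ n :=
    Finset.single_le_sum (f := fun ψ : ℕ → ℕ => ψ n) (fun _ _ => Nat.zero_le _)
      (hfin.mem_toFinset.mpr hφ)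
  exact absurd hn (not_lt.mpr h1)

theorem unb (pkg : PkgStmt) : UnbStmt := by
  intro μ hμ
  obtain ⟨F, hF, hFc⟩ := exists_unb
  have hinfF := infinite_of_unb F hF
  have hμ0 : Cardinal.aleph0 ≤ μ := by
    rw [hFc] at hinfF
    exact hinfF.trans hμ
  obtain ⟨J, hJ⟩ : ∃ J : Type, Cardinal.mk J = μ := ⟨μ.out, Cardinal.mk_out μ⟩
  have hJi : Infinite J := Cardinal.infinite_iff.mpr (by rw [hJ]; exact hμ0)
  have hne : Nonempty F := by
    obtain ⟨φ, hφ, -⟩ := hF (fun _ => 0)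
    exact ⟨⟨φ, hφ⟩⟩
  have hle : Cardinal.mk F ≤ Cardinal.mk J := by
    rw [hFc, hJ]
    exact hμ
  obtain ⟨e⟩ := hle
  have hsur : ∃ p : J → F, Function.Surjective p :=
    ⟨Function.invFun e, Function.invFun_surjective e.injective⟩
  obtain ⟨p, hp⟩ := hsur
  obtain ⟨L, iL, a, b, hint, hlcb, hcoi, hcfl, hcard, hmap⟩ :=
    pkg ℕ J (fun n j => (p j).1 n)
  refine ⟨L, iL, hlcb, hint, ?_, ?_, ?_, ?_⟩
  · rw [hcoi]
    exact Cardinal.mk_nat
  · rw [hcfl, hJ]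
  · rw [hJ, Cardinal.mk_nat, max_eq_right hμ0] at hcard
    exact hcard
  · rintro ⟨f, hf⟩
    have h1 := hmap f hf
    obtain ⟨φ, hφ, h2⟩ := hF (fun n => (f (a n)).natAbs + n)
    obtain ⟨j, hj⟩ := hp ⟨φ, hφ⟩
    obtain ⟨n, hn, hlt⟩ := h2 (f (b j)).natAbs
    have h3 := h1 n j
    have h4 : ((p j).1 n : ℤ) = (φ n : ℤ) := by rw [hj]
    rw [h4] at h3
    have h5 : ((f (a n)).natAbs : ℤ) + n < φ n := by exact_mod_cast hlt
    have h6 : (((f (b j)).natAbs : ℕ) : ℤ) ≤ n := by exact_mod_cast hn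
    have h7 : f (b j) ≤ ((f (b j)).natAbs : ℤ) := Int.le_natAbs
    have h8 : -((f (a n)).natAbs : ℤ) ≤ f (a n) := by
      have := Int.le_natAbs (a := -f (a n))
      rw [Int.natAbs_neg] at this
      linarith
    linarith

end Pool.Agent.DFM.H52
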